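import Pool.Agent.Lib.BrouwerThm.Basic

set_option autoImplicit false

/-!
# Invariance of domain

`InvDom.isOpen_image`: if `U` is an open subset of a finite dimensional real inner product space
`E` and `f : E → E` is continuous and injective on `U`, then `f '' U` is open.
The proof deduces it from the Brouwer zero theorem (`BrouwerThm.exists_zero_of_eq_id`).
-/

namespace InvDom

open Set Metric MeasureTheory Module
open scoped Topology ContDiff

variable {E : Type*} [NormedAddCommGroup E] [InnerProductSpace ℝ E] [FiniteDimensional ℝ E]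

/-- a continuous map of the closed unit ball which is at distance at most one from the identity
has a zero -/
theorem zero_of_near (F : E → E) (hF : ContinuousOn F (closedBall 0 1))
    (h : ∀ x ∈ closedBall (0 : E) 1, ‖x - F x‖ ≤ 1) : ∃ x ∈ closedBall (0 : E) 1, F x = 0 := by
  let r : E → E := fun x => (max 1 ‖x‖)⁻¹ • x
  have hm : ∀ x : E, 0 < max 1 ‖x‖ := fun x => lt_of_lt_of_le one_pos (le_max_left _ _)
  have hr : Continuous r :=
    ((continuous_const.max continuous_norm).inv₀ fun x => (hm x).ne').smul continuous_id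
  have hrm : ∀ x, r x ∈ closedBall (0 : E) 1 := by
    intro x
    rw [mem_closedBall_zero_iff, norm_smul, norm_inv, Real.norm_eq_abs, abs_of_pos (hm x)]
    rw [inv_mul_le_iff₀ (hm x), mul_one]
    exact le_max_right _ _
  have hrx : ∀ x ∈ closedBall (0 : E) 1, r x = x := by
    intro x hx
    rw [mem_closedBall_zero_iff] at hx
    simp only [r, max_eq_left hx, inv_one, one_smul]
  let θ : E → ℝ := fun x => max 0 (min 1 (2 - ‖x‖))
  have hθ : Continuous θ := by fun_prop
  let G : E → E := fun x => x - θ x • (r x - F (r x))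
  have hFr : Continuous fun x => F (r x) := hF.comp_continuous hr hrm
  have hG : Continuous G := continuous_id.sub (hθ.smul (hr.sub hFr))
  obtain ⟨x, hx⟩ := Pool.Agent.Lib.BrouwerThm.exists_zero_of_eq_id G hG 2 (by
    intro x hx
    have : θ x = 0 := by
      simp only [θ]
      apply max_eq_left
      exact (min_le_right _ _).trans (by linarith)
    simp only [G, this, zero_smul, sub_zero])
  have hθ0 : 0 ≤ θ x := le_max_left _ _
  have hθ1 : θ x ≤ 1 := max_le zero_le_one (min_le_left _ _)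
  have h1 : x = θ x • (r x - F (r x)) := sub_eq_zero.1 hx
  have h2 : ‖x‖ ≤ 1 := by
    rw [h1, norm_smul, Real.norm_eq_abs, abs_of_nonneg hθ0]
    calc θ x * ‖r x - F (r x)‖ ≤ 1 * 1 :=
          mul_le_mul hθ1 (h _ (hrm x)) (norm_nonneg _) zero_le_one
      _ = 1 := one_mul 1
  have hxb : x ∈ closedBall (0 : E) 1 := by rwa [mem_closedBall_zero_iff]
  refine ⟨x, hxb, ?_⟩
  have h3 : θ x = 1 := by
    simp only [θ]
    rw [min_eq_left (by linarith), max_eq_right zero_le_one]
  have h4 := hx
  simp only [G, h3, one_smul, hrx x hxb, sub_sub_cancel] at h4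
  exact h4

/-- the image of the closed unit ball is a neighbourhood of the image of the centre -/
theorem image_mem_nhds (f : E → E) (hf : ContinuousOn f (closedBall 0 1))
    (hinj : InjOn f (closedBall 0 1)) : f '' closedBall 0 1 ∈ 𝓝 (f 0) := by
  classical
  by_contra hK
  have h0b : (0 : E) ∈ closedBall (0 : E) 1 := mem_closedBall_self zero_le_one
  have hcpt : IsCompact (closedBall (0 : E) 1) := isCompact_closedBall 0 1
  haveI : CompactSpace (closedBall (0 : E) 1) := isCompact_iff_compactSpace.1 hcpt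
  set K : Set E := f '' closedBall 0 1 with hKdef
  have hKc : IsCompact K := hcpt.image_of_continuousOn hf
  -- a continuous left inverse
  have hfr : Continuous fun x : closedBall (0 : E) 1 => f x := continuousOn_iff_continuous_domRestrict.1 hf
  have hemb : Topology.IsClosedEmbedding fun x : closedBall (0 : E) 1 => f x :=
    hfr.isClosedEmbedding fun x y hxy => Subtype.ext (hinj x.2 y.2 hxy)
  haveI : TietzeExtension E := TietzeExtension.of_tvs ℝ
  obtain ⟨G0, hG0⟩ := ContinuousMap.exists_extension' hemb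
    (⟨fun x : closedBall (0 : E) 1 => (x : E), continuous_subtype_val⟩ :
      C(closedBall (0 : E) 1, E))
  have hG0f : ∀ x ∈ closedBall (0 : E) 1, G0 (f x) = x := fun x hx => congrFun hG0 ⟨x, hx⟩
  obtain ⟨R0, hR0⟩ := hKc.isBounded.subset_closedBall (0 : E)
  let R : ℝ := max R0 1
  have hR1 : 1 ≤ R := le_max_right _ _
  have hRpos : 0 < R := one_pos.trans_le hR1
  have hKR : ∀ y ∈ K, ‖y‖ ≤ R := fun y hy =>
    (mem_closedBall_zero_iff.1 (hR0 hy)).trans (le_max_left _ _)
  let χ : ContDiffBump (0 : E) := ⟨R, R + 1, hRpos, lt_add_one R⟩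
  let G : E → E := fun y => χ y • G0 y
  have hGc : Continuous G := χ.continuous.smul G0.continuous
  have hGs : HasCompactSupport G := χ.hasCompactSupport.smul_right
  have hGu : UniformContinuous G := hGs.uniformContinuous_of_continuous hGc
  have hGf : ∀ x ∈ closedBall (0 : E) 1, G (f x) = x := by
    intro x hx
    have : χ (f x) = 1 :=
      χ.one_of_mem_closedBall (mem_closedBall_zero_iff.2 (hKR _ (mem_image_of_mem f hx)))
    simp only [G, this, one_smul, hG0f x hx]
  have hGf0 : G (f 0) = 0 := hGf 0 h0b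
  -- the radius
  obtain ⟨ε, hε, hGε⟩ : ∃ ε > 0, ∀ y, ‖y - f 0‖ < 2 * ε → ‖G y‖ < 1 / 10 := by
    have := Metric.continuous_iff.1 hGc (f 0) (1 / 10) (by norm_num)
    obtain ⟨η, hη, h⟩ := this
    refine ⟨η / 2, half_pos hη, fun y hy => ?_⟩
    have := h y (by rw [dist_eq_norm]; linarith)
    rwa [hGf0, dist_zero_right] at this
  -- a point close to `f 0`, not in `K`
  obtain ⟨c, hcb, hcK⟩ : ∃ c ∈ ball (f 0) ε, c ∉ K := by
    by_contra hcon
    push Not at hcon
    exact hK (Filter.mem_of_superset (ball_mem_nhds _ hε) hcon)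
  have hcf : ‖f 0 - c‖ < ε := by
    rw [← dist_eq_norm, dist_comm]
    exact hcb
  -- the sets
  let S1 : Set E := K ∩ {y | ε ≤ ‖y - c‖}
  have hS1c : IsCompact S1 := hKc.inter_right (isClosed_le continuous_const (by fun_prop))
  have hS1G : ∀ y ∈ S1, G y ≠ 0 := by
    rintro y ⟨⟨x, hx, rfl⟩, hy⟩ h0
    rw [hGf x hx] at h0
    rw [h0] at hy
    exact absurd hcf (not_lt.2 hy)
  obtain ⟨δ, hδ, hδ1, hδS⟩ : ∃ δ > 0, δ ≤ 1 / 10 ∧ ∀ y ∈ S1, δ ≤ ‖G y‖ := by
    rcases S1.eq_empty_or_nonempty with he | hne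
    · exact ⟨1 / 10, by norm_num, le_rfl, fun y hy => by rw [he] at hy; exact hy.elim⟩
    · obtain ⟨y0, hy0, hmin⟩ := hS1c.exists_isMinOn hne hGc.norm.continuousOn
      exact ⟨min ‖G y0‖ (1 / 10), lt_min (norm_pos_iff.2 (hS1G y0 hy0)) (by norm_num),
        min_le_right _ _, fun y hy => (min_le_left _ _).trans (hmin hy)⟩
  obtain ⟨P0, hP0, hP0G⟩ := hGu.exists_contDiff_dist_le (half_pos hδ)
  -- perturb
  by_cases hE : ∀ y : E, y = c
  · -- zero dimensional space
    exact hcK (by rw [← hE (f 0)]; exact mem_image_of_mem f h0b)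
  push Not at hE
  obtain ⟨z0, hz0⟩ := hE
  haveI : Nontrivial E := ⟨⟨z0, c, hz0⟩⟩
  letI : MeasurableSpace E := borel E
  haveI : BorelSpace E := ⟨rfl⟩
  let μ : Measure E := Measure.addHaar
  have hnull : μ (P0 '' sphere c ε) = 0 := by
    apply addHaar_image_eq_zero_of_differentiableOn_of_addHaar_eq_zero μ
    · exact (hP0.differentiable (by simp)).differentiableOn
    · exact Measure.addHaar_sphere_of_ne_zero μ c hε.ne'
  obtain ⟨w, hwb, hwP⟩ : ∃ w ∈ ball (0 : E) (δ / 2), w ∉ P0 '' sphere c ε := by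
    by_contra hcon
    push Not at hcon
    have h1 : μ (ball (0 : E) (δ / 2)) ≤ μ (P0 '' sphere c ε) := measure_mono hcon
    rw [hnull] at h1
    exact (isOpen_ball.measure_pos μ ⟨0, mem_ball_self (half_pos hδ)⟩).not_ge h1
  let P : E → E := fun y => P0 y - w
  have hPc : Continuous P := hP0.continuous.sub continuous_const
  have hPG : ∀ y, ‖G y - P y‖ < δ := by
    intro y
    have h1 := hP0G y
    rw [dist_eq_norm] at h1
    have h2 : G y - P y = w - (P0 y - G y) := by simp only [P]; abel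
    rw [h2]
    have h3 : ‖w‖ < δ / 2 := mem_ball_zero_iff.1 hwb
    calc ‖w - (P0 y - G y)‖ ≤ ‖w‖ + ‖P0 y - G y‖ := norm_sub_le _ _
      _ < δ / 2 + δ / 2 := add_lt_add_of_lt_of_le h3 h1.le
      _ = δ := add_halves δ
  have hPs : ∀ y ∈ sphere c ε, P y ≠ 0 := by
    intro y hy h0
    exact hwP ⟨y, hy, sub_eq_zero.1 h0⟩
  have hPS1 : ∀ y ∈ S1, P y ≠ 0 := by
    intro y hy h0
    have h1 := hPG y
    rw [h0, sub_zero] at h1
    exact absurd (hδS y hy) (not_le.2 h1)
  let Φ : E → E := fun y => c + (max (ε / ‖y - c‖) 1) • (y - c)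
  have hne : ∀ y ∈ K, ‖y - c‖ ≠ 0 := by
    intro y hy h0
    rw [norm_eq_zero, sub_eq_zero] at h0
    exact hcK (h0 ▸ hy)
  have hΦc : ContinuousOn Φ K := by
    apply continuousOn_const.add
    apply ContinuousOn.smul _ (continuousOn_id.sub continuousOn_const)
    exact (continuousOn_const.div (by fun_prop) hne).sup continuousOn_const
  have hΦ1 : ∀ y, ε ≤ ‖y - c‖ → Φ y = y := by
    intro y hy
    have h1 : ε / ‖y - c‖ ≤ 1 := (div_le_one (hε.trans_le hy)).2 hy
    simp only [Φ, max_eq_right h1, one_smul, add_sub_cancel]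
  have hΦ2 : ∀ y ∈ K, ‖y - c‖ < ε → Φ y ∈ sphere c ε := by
    intro y hy hlt
    have hpos : 0 < ‖y - c‖ := lt_of_le_of_ne (norm_nonneg _) (Ne.symm (hne y hy))
    have h1 : 1 ≤ ε / ‖y - c‖ := (one_le_div hpos).2 hlt.le
    rw [mem_sphere_iff_norm]
    simp only [Φ, max_eq_left h1, add_sub_cancel_left]
    rw [norm_smul, Real.norm_eq_abs, abs_of_pos (div_pos hε hpos), div_mul_cancel₀ _ hpos.ne']
  obtain ⟨x, hx, hx0⟩ := zero_of_near (fun x => P (Φ (f x)))
    (hPc.comp_continuousOn (hΦc.comp hf fun x hx => mem_image_of_mem f hx)) (by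
      intro x hx
      have hyK : f x ∈ K := mem_image_of_mem f hx
      show ‖x - P (Φ (f x))‖ ≤ 1
      rw [← hGf x hx] 
      rw [hGf x hx]
      rcases le_or_gt ε ‖f x - c‖ with h1 | h1
      · rw [hΦ1 _ h1]
        have h2 := hPG (f x)
        rw [hGf x hx] at h2
        linarith
      · have h2 := hΦ2 _ hyK h1
        have h3 : ‖Φ (f x) - f 0‖ < 2 * ε := by
          calc ‖Φ (f x) - f 0‖ ≤ ‖Φ (f x) - c‖ + ‖c - f 0‖ := norm_sub_le_norm_sub_add_norm_sub _ _ _
            _ < ε + ε := by
                rw [mem_sphere_iff_norm.1 h2]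
                rw [norm_sub_rev] at hcf
                linarith
            _ = 2 * ε := by ring
        have h4 : ‖f x - f 0‖ < 2 * ε := by
          calc ‖f x - f 0‖ ≤ ‖f x - c‖ + ‖c - f 0‖ := norm_sub_le_norm_sub_add_norm_sub _ _ _
            _ < ε + ε := by
                rw [norm_sub_rev] at hcf
                linarith
            _ = 2 * ε := by ring
        have h5 := hGε _ h3
        have h6 := hGε _ h4
        rw [hGf x hx] at h6
        have h7 := hPG (Φ (f x))
        have h8 : x - P (Φ (f x)) = x - G (Φ (f x)) + (G (Φ (f x)) - P (Φ (f x))) := by abel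
        rw [h8]
        calc ‖x - G (Φ (f x)) + (G (Φ (f x)) - P (Φ (f x)))‖
            ≤ ‖x - G (Φ (f x))‖ + ‖G (Φ (f x)) - P (Φ (f x))‖ := norm_add_le _ _
          _ ≤ (‖x‖ + ‖G (Φ (f x))‖) + ‖G (Φ (f x)) - P (Φ (f x))‖ :=
              add_le_add_left (norm_sub_le _ _) _
          _ ≤ 1 := by linarith)
  have hyK : f x ∈ K := mem_image_of_mem f hx
  rcases le_or_gt ε ‖f x - c‖ with h1 | h1
  · have hx0' : P (Φ (f x)) = 0 := hx0
    rw [hΦ1 _ h1] at hx0'
    exact hPS1 _ ⟨hyK, h1⟩ hx0'
  · exact hPs _ (hΦ2 _ hyK h1) hx0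

/-- **Invariance of domain** -/
theorem isOpen_image (f : E → E) (U : Set E) (hU : IsOpen U) (hf : ContinuousOn f U)
    (hinj : InjOn f U) : IsOpen (f '' U) := by
  rw [isOpen_iff_mem_nhds]
  rintro _ ⟨x, hx, rfl⟩
  obtain ⟨r, hr, hrU⟩ := Metric.nhds_basis_closedBall.mem_iff.1 (hU.mem_nhds hx)
  have hmap : ∀ z ∈ closedBall (0 : E) 1, x + r • z ∈ closedBall x r := by
    intro z hz
    rw [mem_closedBall_iff_norm, add_sub_cancel_left, norm_smul, Real.norm_eq_abs, abs_of_pos hr]
    calc r * ‖z‖ ≤ r * 1 := mul_le_mul_of_nonneg_left (mem_closedBall_zero_iff.1 hz) hr.le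
      _ = r := mul_one r
  have h := image_mem_nhds (fun z => f (x + r • z))
    (hf.comp (by fun_prop) fun z hz => hrU (hmap z hz))
    (fun z hz z' hz' h => by
      have h1 := hinj (hrU (hmap z hz)) (hrU (hmap z' hz')) h
      have h2 : r • z = r • z' := add_left_cancel h1
      exact smul_right_injective E hr.ne' h2)
  simp only [smul_zero, add_zero] at h
  refine Filter.mem_of_superset h ?_
  rintro _ ⟨z, hz, rfl⟩
  exact mem_image_of_mem f (hrU (hmap z hz))

end InvDom
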