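import Pool.Agent.Lib.InvDom.Basic

set_option autoImplicit false

/-!
# Invariance of domain for topological manifolds

`InvDom.isOpen_image_of_locEuc`: if `M`, `N` are locally homeomorphic to the same finite
dimensional space `E`, then the image of an open set under a map which is continuous and injective
on it is open.
-/

namespace InvDom

open Set
open scoped Topology

variable {E : Type*} [NormedAddCommGroup E] [InnerProductSpace ℝ E] [FiniteDimensional ℝ E]

/-- invariance of domain for maps between manifolds -/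
theorem isOpen_image_of_locEuc {M N : Type*} [TopologicalSpace M] [TopologicalSpace N]
    (hM : ∀ x : M, ∃ U : Set M, IsOpen U ∧ x ∈ U ∧ Nonempty (U ≃ₜ E))
    (hN : ∀ x : N, ∃ U : Set N, IsOpen U ∧ x ∈ U ∧ Nonempty (U ≃ₜ E))
    (h : M → N) (W : Set M) (hW : IsOpen W) (hc : ContinuousOn h W) (hi : InjOn h W) :
    IsOpen (h '' W) := by
  classical
  rw [isOpen_iff_mem_nhds]
  rintro _ ⟨x, hx, rfl⟩
  obtain ⟨U, hU, hxU, ⟨e⟩⟩ := hM x
  obtain ⟨V, hV, hxV, ⟨e'⟩⟩ := hN (h x)
  let W' : Set M := W ∩ h ⁻¹' V
  have hW' : IsOpen W' := hc.isOpen_inter_preimage hW hV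
  let A : Set E := {z | (e.symm z : M) ∈ W'}
  have hA : IsOpen A := hW'.preimage (continuous_subtype_val.comp e.symm.continuous)
  let φ : E → E := fun z => if hz : h (e.symm z) ∈ V then e' ⟨h (e.symm z), hz⟩ else 0
  have hφ : ∀ z (hz : h (e.symm z) ∈ V), φ z = e' ⟨h (e.symm z), hz⟩ := fun z hz => dif_pos hz
  have hφc : ContinuousOn φ A := by
    rw [continuousOn_iff_continuous_domRestrict]
    have h1 : A.domRestrict φ = fun z : A => e' ⟨h (e.symm z.1), z.2.2⟩ := by
      funext z
      exact hφ z.1 z.2.2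
    rw [h1]
    apply e'.continuous.comp
    apply Continuous.subtype_mk
    apply hc.comp_continuous
    · exact continuous_subtype_val.comp (e.symm.continuous.comp continuous_subtype_val)
    · intro z
      exact z.2.1
  have hφi : InjOn φ A := by
    intro z hz z' hz' heq
    rw [hφ z hz.2, hφ z' hz'.2] at heq
    have h1 := e'.injective heq
    have h2 : h (e.symm z) = h (e.symm z') := congrArg Subtype.val h1
    have h3 := hi hz.1 hz'.1 h2
    exact e.symm.injective (Subtype.ext h3)
  have hopen : IsOpen (φ '' A) := isOpen_image φ A hA hφc hφi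
  have hopen2 : IsOpen ((fun w : E => (e'.symm w : N)) '' (φ '' A)) := by
    have h1 : IsOpenMap fun w : E => (e'.symm w : N) :=
      (hV.isOpenMap_subtype_val).comp e'.symm.isOpenMap
    exact h1 _ hopen
  refine Filter.mem_of_superset (hopen2.mem_nhds ?_) ?_
  · refine ⟨φ (e ⟨x, hxU⟩), ⟨e ⟨x, hxU⟩, ?_, rfl⟩, ?_⟩
    · show (e.symm (e ⟨x, hxU⟩) : M) ∈ W'
      rw [e.symm_apply_apply]
      exact ⟨hx, hxV⟩
    · have h1 : h (e.symm (e ⟨x, hxU⟩)) ∈ V := by
        rw [e.symm_apply_apply]
        exact hxV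
      simp only
      rw [hφ _ h1, e'.symm_apply_apply]
      simp only [e.symm_apply_apply]
  · rintro _ ⟨_, ⟨z, hz, rfl⟩, rfl⟩
    refine ⟨e.symm z, hz.1, ?_⟩
    simp only
    rw [hφ z hz.2, e'.symm_apply_apply]

/-- a continuous injection between manifolds of the same dimension is open -/
theorem isOpenMap_of_injective {M N : Type*} [TopologicalSpace M] [TopologicalSpace N]
    (hM : ∀ x : M, ∃ U : Set M, IsOpen U ∧ x ∈ U ∧ Nonempty (U ≃ₜ E))
    (hN : ∀ x : N, ∃ U : Set N, IsOpen U ∧ x ∈ U ∧ Nonempty (U ≃ₜ E))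
    (h : M → N) (hc : Continuous h) (hi : Function.Injective h) : IsOpenMap h := fun W hW =>
  isOpen_image_of_locEuc hM hN h W hW hc.continuousOn hi.injOn

/-- a continuous injection of a nonempty compact manifold into a connected manifold of the same
dimension is surjective -/
theorem surjective_of_injective {M N : Type*} [TopologicalSpace M] [TopologicalSpace N]
    [CompactSpace M] [Nonempty M] [T2Space N] [PreconnectedSpace N]
    (hM : ∀ x : M, ∃ U : Set M, IsOpen U ∧ x ∈ U ∧ Nonempty (U ≃ₜ E))
    (hN : ∀ x : N, ∃ U : Set N, IsOpen U ∧ x ∈ U ∧ Nonempty (U ≃ₜ E))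
    (h : M → N) (hc : Continuous h) (hi : Function.Injective h) : Function.Surjective h := by
  rw [← range_eq_univ]
  apply IsClopen.eq_univ
  · exact ⟨(isCompact_range hc).isClosed, (isOpenMap_of_injective hM hN h hc hi).isOpen_range⟩
  · exact range_nonempty h

end InvDom
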